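import Pool.Agent.Lib.Pec6744.Edges

/-!
# Project EC, lower bound: the configuration of flat clusters

`v_i = (i, i^2)`, `s = (i+1) % m`, `s2 = (i+2) % m`, `d_i = (v_s - v_i) + (v_s2 - v_i)`,
`e_i = v_s - v_i` and `z i a = v_i + t d_i + t^2 e_i` with `t = δ a` for a small `δ > 0`.
The three sign conditions hold for `δ` near zero by continuity.
-/

set_option autoImplicit false

open Filter Topology Finset

namespace Pool.Agent.Lib.EcB

open Pool.Agent.Lib.Pec6744

namespace ConfAux

/-- the orientation of three points of the parabola -/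
def cr (i j l : ℝ) : ℝ := (j - i) * (l - i) * (l - j)

/-- successor index, as a real number -/
noncomputable def sx (m i : ℕ) : ℝ := (((i + 1) % m : ℕ) : ℝ)
/-- second successor index, as a real number -/
noncomputable def tx (m i : ℕ) : ℝ := (((i + 2) % m : ℕ) : ℝ)

noncomputable def dx (m i : ℕ) : ℝ := (sx m i - i) + (tx m i - i)
noncomputable def dy (m i : ℕ) : ℝ := (sx m i ^ 2 - (i:ℝ) ^ 2) + (tx m i ^ 2 - (i:ℝ) ^ 2)
noncomputable def ex (m i : ℕ) : ℝ := sx m i - i
noncomputable def ey (m i : ℕ) : ℝ := sx m i ^ 2 - (i:ℝ) ^ 2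

noncomputable def zx (m : ℕ) (δ : ℝ) (i a : ℕ) : ℝ :=
  i + (δ * a) * dx m i + (δ * a) ^ 2 * ex m i
noncomputable def zy (m : ℕ) (δ : ℝ) (i a : ℕ) : ℝ :=
  (i:ℝ) ^ 2 + (δ * a) * dy m i + (δ * a) ^ 2 * ey m i

/-- the configuration -/
noncomputable def zz (m : ℕ) (δ : ℝ) (i a : ℕ) : E2 := !₂[zx m δ i a, zy m δ i a]

lemma zz_zero (m : ℕ) (δ : ℝ) (i a : ℕ) : zz m δ i a 0 = zx m δ i a := by simp [zz]
lemma zz_one (m : ℕ) (δ : ℝ) (i a : ℕ) : zz m δ i a 1 = zy m δ i a := by simp [zz]

lemma mul_pos_of_int {x : ℤ} (h0 : x ≠ 0) (h1 : x ≠ 1) : 0 < x * (x - 1) := by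
  rcases lt_or_gt_of_ne h0 with h | h
  · exact mul_pos_of_neg_of_neg h (by omega)
  · exact mul_pos h (by omega)

/-- `cr i (i+1) j > 0`, cyclically -/
lemma cr_succ {m i j : ℕ} (hi : i < m) (hj : j < m) (h1 : j ≠ i)
    (h2 : j ≠ (i + 1) % m) : 0 < cr i (sx m i) j := by
  unfold cr sx
  rcases Nat.lt_or_ge (i + 1) m with h | h
  · rw [Nat.mod_eq_of_lt h] at h2 ⊢
    have h3 := mul_pos_of_int (x := (j:ℤ) - i) (by omega) (by omega)
    have h4 : (0:ℝ) < ((j:ℝ) - i) * ((j:ℝ) - i - 1) := by exact_mod_cast h3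
    push_cast
    nlinarith
  · have h3 : i + 1 = m := by omega
    rw [h3, Nat.mod_self] at h2 ⊢
    have h4 : (0:ℝ) < j := by
      have : 0 < j := by omega
      exact_mod_cast this
    have h5 : (j:ℝ) < i := by
      have : j < i := by omega
      exact_mod_cast this
    push_cast
    have h6 : (0:ℝ) < (i * j) * ((i:ℝ) - j) := mul_pos (mul_pos (h4.trans h5) h4) (by linarith)
    nlinarith

/-- `cr i (i+2) j > 0`, cyclically -/
lemma cr_succ2 {m i j : ℕ} (hm : 3 ≤ m) (hi : i < m) (hj : j < m) (h1 : j ≠ i)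
    (h2 : j ≠ (i + 1) % m) (h3 : j ≠ (i + 2) % m) : 0 < cr i (tx m i) j := by
  unfold cr tx
  rcases Nat.lt_or_ge (i + 2) m with h | h
  · rw [Nat.mod_eq_of_lt (by omega : i + 1 < m)] at h2
    rw [Nat.mod_eq_of_lt h] at h3 ⊢
    have h4 : 0 < ((j:ℤ) - i) * ((j:ℤ) - i - 2) := by
      rcases Nat.lt_or_ge j i with h5 | h5
      · exact mul_pos_of_neg_of_neg (by omega) (by omega)
      · exact mul_pos (by omega) (by omega)
    have h5 : (0:ℝ) < ((j:ℝ) - i) * ((j:ℝ) - i - 2) := by exact_mod_cast h4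
    push_cast
    nlinarith
  · rcases Nat.lt_or_ge (i + 1) m with h' | h'
    · have h4 : i + 2 = m := by omega
      rw [Nat.mod_eq_of_lt h'] at h2
      rw [h4, Nat.mod_self] at h3 ⊢
      have h4 : (0:ℝ) < j := by
        have : 0 < j := by omega
        exact_mod_cast this
      have h5 : (j:ℝ) < i := by
        have : j < i := by omega
        exact_mod_cast this
      push_cast
      have h6 : (0:ℝ) < (i * j) * ((i:ℝ) - j) := mul_pos (mul_pos (h4.trans h5) h4) (by linarith)
      nlinarith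
    · have h4 : i + 1 = m := by omega
      have h5 : (i + 2) % m = 1 := by
        have : i + 2 = 1 + m := by omega
        rw [this, Nat.add_mod_right, Nat.mod_eq_of_lt (by omega)]
      rw [h4, Nat.mod_self] at h2
      rw [h5] at h3 ⊢
      have h6 : (1:ℝ) < j := by
        have : 1 < j := by omega
        exact_mod_cast this
      have h7 : (j:ℝ) < i := by
        have : j < i := by omega
        exact_mod_cast this
      push_cast
      have h8 : (0:ℝ) < (((i:ℝ) - 1) * ((j:ℝ) - 1)) * ((i:ℝ) - j) :=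
        mul_pos (mul_pos (by linarith) (by linarith)) (by linarith)
      nlinarith

lemma succ2_ne {m i : ℕ} (hm : 3 ≤ m) (hi : i < m) :
    (i + 2) % m ≠ i ∧ (i + 2) % m ≠ (i + 1) % m ∧ (i + 1) % m ≠ i := by
  rcases Nat.lt_or_ge (i + 2) m with h | h
  · rw [Nat.mod_eq_of_lt h, Nat.mod_eq_of_lt (by omega : i + 1 < m)]
    omega
  · rcases Nat.lt_or_ge (i + 1) m with h' | h'
    · have h4 : i + 2 = m := by omega
      rw [Nat.mod_eq_of_lt h', h4, Nat.mod_self]
      omega
    · have h4 : i + 1 = m := by omega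
      have h5 : (i + 2) % m = 1 := by
        have : i + 2 = 1 + m := by omega
        rw [this, Nat.add_mod_right, Nat.mod_eq_of_lt (by omega)]
      rw [h5, h4, Nat.mod_self]
      omega

/-- the cross product of `d_i` and `v_j - v_i` -/
noncomputable def cc (m i : ℕ) (j : ℝ) : ℝ :=
  dx m i * (j ^ 2 - (i:ℝ) ^ 2) - dy m i * (j - i)

lemma cc_eq (m i : ℕ) (j : ℝ) : cc m i j = cr i (sx m i) j + cr i (tx m i) j := by
  unfold cc cr dx dy
  ring

lemma cc_neg {m i : ℕ} (hm : 3 ≤ m) (hi : i < m) : cc m i (sx m i) < 0 := by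
  obtain ⟨h1, h2, h3⟩ := succ2_ne hm hi
  have h4 := cr_succ hi (Nat.mod_lt (i + 2) (by omega)) h1 h2
  rw [cc_eq]
  have h5 : cr i (sx m i) (tx m i) > 0 := h4
  unfold cr at h5 ⊢
  nlinarith

lemma cc_pos {m i j : ℕ} (hm : 3 ≤ m) (hi : i < m) (hj : j < m) (h1 : j ≠ i)
    (h2 : j ≠ (i + 1) % m) : 0 < cc m i j := by
  rw [cc_eq]
  have h4 := cr_succ hi hj h1 h2
  by_cases h3 : j = (i + 2) % m
  · have h5 : cr (i:ℝ) (tx m i) j = 0 := by
      unfold cr tx
      rw [← h3]
      ring
    rw [h5, add_zero]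
    exact h4
  · exact add_pos h4 (cr_succ2 hm hi hj h1 h2 h3)

/-- the second factor of the orientation of two points of a cluster and a third point -/
noncomputable def fb (m : ℕ) (i j a b c : ℕ) (δ : ℝ) : ℝ :=
  (dx m i + δ * (a + b) * ex m i) * (zy m δ j c - zy m δ i a) -
    (dy m i + δ * (a + b) * ey m i) * (zx m δ j c - zx m δ i a)

lemma orient_two (m : ℕ) (δ : ℝ) (i j a b c : ℕ) :
    orient (zz m δ i a) (zz m δ i b) (zz m δ j c) = δ * ((b:ℝ) - a) * fb m i j a b c δ := by
  unfold orient fb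
  rw [zz_zero, zz_zero, zz_zero, zz_one, zz_one, zz_one]
  have e1 : zx m δ i b - zx m δ i a = δ * ((b:ℝ) - a) * (dx m i + δ * (a + b) * ex m i) := by
    unfold zx
    ring
  have e2 : zy m δ i b - zy m δ i a = δ * ((b:ℝ) - a) * (dy m i + δ * (a + b) * ey m i) := by
    unfold zy
    ring
  rw [e1, e2]
  ring

lemma orient_three (m : ℕ) (δ : ℝ) (i a b c : ℕ) :
    orient (zz m δ i a) (zz m δ i b) (zz m δ i c) =
      δ ^ 3 * (((b:ℝ) - a) * ((c:ℝ) - a) * ((c:ℝ) - b)) * cc m i (sx m i) := by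
  unfold orient cc
  rw [zz_zero, zz_zero, zz_zero, zz_one, zz_one, zz_one]
  unfold zx zy ex ey
  ring

lemma fb_zero (m : ℕ) (i j a b c : ℕ) : fb m i j a b c 0 = cc m i j := by
  unfold fb cc zx zy
  ring

lemma cont_zx (m i a : ℕ) : Continuous fun δ : ℝ => zx m δ i a := by
  unfold zx
  fun_prop

lemma cont_zy (m i a : ℕ) : Continuous fun δ : ℝ => zy m δ i a := by
  unfold zy
  fun_prop

lemma cont_fb (m i j a b c : ℕ) : Continuous (fb m i j a b c) := by
  unfold fb
  have := cont_zx m i a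
  have := cont_zx m j c
  have := cont_zy m i a
  have := cont_zy m j c
  fun_prop

lemma cont_or (m i j l a b c : ℕ) :
    Continuous fun δ : ℝ => orient (zz m δ i a) (zz m δ j b) (zz m δ l c) := by
  unfold orient
  simp only [zz_zero, zz_one]
  have := cont_zx m i a
  have := cont_zx m j b
  have := cont_zx m l c
  have := cont_zy m i a
  have := cont_zy m j b
  have := cont_zy m l c
  fun_prop

lemma or_zero (m i j l a b c : ℕ) :
    orient (zz m 0 i a) (zz m 0 j b) (zz m 0 l c) = cr i j l := by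
  unfold orient cr
  rw [zz_zero, zz_zero, zz_zero, zz_one, zz_one, zz_one]
  unfold zx zy
  ring

end ConfAux

open ConfAux

/-- **The configuration**: `m` flat clusters of `M` points. -/
theorem exists_config (m M : ℕ) (hm : 3 ≤ m) : ∃ z : ℕ → ℕ → E2,
    (∀ i j l a b c, i < j → j < l → l < m → a < M → b < M → c < M →
      0 < orient (z i a) (z j b) (z l c)) ∧
    (∀ i j a b c, i < m → j < m → j ≠ i → a < b → b < M → c < M →
      (j = (i + 1) % m → orient (z i a) (z i b) (z j c) < 0) ∧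
      (j ≠ (i + 1) % m → 0 < orient (z i a) (z i b) (z j c))) ∧
    (∀ i a b c, i < m → a < b → b < c → c < M → orient (z i a) (z i b) (z i c) < 0) := by
  have evA : ∀ᶠ δ in 𝓝[>] (0:ℝ), ∀ i ∈ range m, ∀ j ∈ range m, ∀ l ∈ range m,
      ∀ a ∈ range M, ∀ b ∈ range M, ∀ c ∈ range M, i < j → j < l →
        0 < orient (zz m δ i a) (zz m δ j b) (zz m δ l c) := by
    simp only [Filter.eventually_all_finset]
    intro i _ j _ l _ a _ b _ c _
    by_cases h : i < j ∧ j < l
    · have h1 : 0 < cr i j l := by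
        have h2 : (i:ℝ) < j := by exact_mod_cast h.1
        have h3 : (j:ℝ) < l := by exact_mod_cast h.2
        exact mul_pos (mul_pos (by linarith) (by linarith)) (by linarith)
      rw [← or_zero m i j l a b c] at h1
      have h2 := (cont_or m i j l a b c).continuousAt.eventually (lt_mem_nhds h1)
      filter_upwards [nhdsWithin_le_nhds h2] with δ hδ _ _ using hδ
    · exact Eventually.of_forall fun δ h1 h2 => absurd ⟨h1, h2⟩ h
  have evB : ∀ᶠ δ in 𝓝[>] (0:ℝ), ∀ i ∈ range m, ∀ j ∈ range m,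
      ∀ a ∈ range M, ∀ b ∈ range M, ∀ c ∈ range M, j ≠ i →
        (j = (i + 1) % m → fb m i j a b c δ < 0) ∧ (j ≠ (i + 1) % m → 0 < fb m i j a b c δ) := by
    simp only [Filter.eventually_all_finset]
    intro i hi j hj a _ b _ c _
    rw [Finset.mem_range] at hi hj
    by_cases h : j = i
    · exact Eventually.of_forall fun δ h1 => absurd h h1
    by_cases h' : j = (i + 1) % m
    · have h1 : fb m i j a b c 0 < 0 := by
        rw [fb_zero, h']
        exact cc_neg hm hi
      have h2 := (cont_fb m i j a b c).continuousAt.eventually (gt_mem_nhds h1)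
      filter_upwards [nhdsWithin_le_nhds h2] with δ hδ _
      exact ⟨fun _ => hδ, fun h3 => absurd h' h3⟩
    · have h1 : 0 < fb m i j a b c 0 := by
        rw [fb_zero]
        exact cc_pos hm hi hj h h'
      have h2 := (cont_fb m i j a b c).continuousAt.eventually (lt_mem_nhds h1)
      filter_upwards [nhdsWithin_le_nhds h2] with δ hδ _
      exact ⟨fun h3 => absurd h3 h', fun _ => hδ⟩
  obtain ⟨δ, ⟨hA, hB⟩, hδ⟩ := ((evA.and evB).and self_mem_nhdsWithin).exists
  have hδ0 : (0:ℝ) < δ := hδ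
  refine ⟨zz m δ, ?_, ?_, ?_⟩
  · intro i j l a b c hij hjl hl ha hb hc
    exact hA i (mem_range.2 (by omega)) j (mem_range.2 (by omega)) l (mem_range.2 hl) a
      (mem_range.2 ha) b (mem_range.2 hb) c (mem_range.2 hc) hij hjl
  · intro i j a b c hi hj hne hab hb hc
    have h1 := hB i (mem_range.2 hi) j (mem_range.2 hj) a (mem_range.2 (by omega)) b
      (mem_range.2 hb) c (mem_range.2 hc) hne
    have h2 : (0:ℝ) < δ * ((b:ℝ) - a) := by
      have : (a:ℝ) < b := by exact_mod_cast hab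
      exact mul_pos hδ0 (by linarith)
    rw [orient_two]
    exact ⟨fun h => mul_neg_of_pos_of_neg h2 (h1.1 h), fun h => mul_pos h2 (h1.2 h)⟩
  · intro i a b c hi hab hbc _
    rw [orient_three]
    have h1 : (a:ℝ) < b := by exact_mod_cast hab
    have h2 : (b:ℝ) < c := by exact_mod_cast hbc
    refine mul_neg_of_pos_of_neg ?_ (cc_neg hm hi)
    exact mul_pos (by positivity) (mul_pos (mul_pos (by linarith) (by linarith)) (by linarith))

end Pool.Agent.Lib.EcB
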