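import Pool.Agent.Lib.EcB.Conf
import Pool.Agent.Lib.Pec6744.Depth

/-!
# Project EC, lower bound: at most `k - 1` hull vertices
-/

set_option autoImplicit false

open Finset

namespace Pool.Agent.Lib.EcB

open Pool.Agent.Lib.Pec6744

/-- the sign conditions of the configuration -/
structure Cfg (m M : ℕ) (z : ℕ → ℕ → E2) : Prop where
  A : ∀ i j l a b c, i < j → j < l → l < m → a < M → b < M → c < M →
    0 < orient (z i a) (z j b) (z l c)
  B : ∀ i j a b c, i < m → j < m → j ≠ i → a < b → b < M → c < M →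
    (j = (i + 1) % m → orient (z i a) (z i b) (z j c) < 0) ∧
    (j ≠ (i + 1) % m → 0 < orient (z i a) (z i b) (z j c))
  C : ∀ i a b c, i < m → a < b → b < c → c < M → orient (z i a) (z i b) (z i c) < 0

namespace CountAux

lemma nz_swap {a b c : E2} (h : orient a b c ≠ 0) : orient b a c ≠ 0 := by
  intro h0
  apply h
  rw [orient_swap, h0, neg_zero]

lemma nz_cycl {a b c : E2} (h : orient a b c ≠ 0) : orient b c a ≠ 0 := by
  rwa [← orient_cycl]

/-- three different clusters -/
lemma nz3 {m M : ℕ} {z : ℕ → ℕ → E2} (H : Cfg m M z) {i j l a b c : ℕ} (hi : i < m) (hj : j < m)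
    (hl : l < m) (ha : a < M) (hb : b < M) (hc : c < M) (h1 : i ≠ j) (h2 : i ≠ l) (h3 : j ≠ l) :
    orient (z i a) (z j b) (z l c) ≠ 0 := by
  rcases lt_or_gt_of_ne h1 with h | h <;> rcases lt_or_gt_of_ne h2 with h' | h' <;>
    rcases lt_or_gt_of_ne h3 with h'' | h''
  · exact (H.A i j l a b c h h'' hl ha hb hc).ne'
  · -- i < j, i < l, l < j
    exact nz_swap (nz_cycl (nz_cycl (H.A i l j a c b h' h'' hj ha hc hb).ne'))
  · omega
  · -- i < j, l < i, l < j : l < i < j
    exact nz_cycl (H.A l i j c a b h' h hj hc ha hb).ne'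
  · -- j < i, i < l : j < i < l
    exact nz_swap (H.A j i l b a c h h' hl hb ha hc).ne'
  · omega
  · -- j < i, l < i, j < l : j < l < i
    exact nz_cycl (nz_cycl (H.A j l i b c a h'' h' hi hb hc ha).ne')
  · -- j < i, l < i, l < j : l < j < i
    exact nz_cycl (nz_swap (nz_cycl (nz_cycl (H.A l j i c b a h'' h hi hc hb ha).ne')))

/-- two equal clusters -/
lemma nz2 {m M : ℕ} {z : ℕ → ℕ → E2} (H : Cfg m M z) {i l a b c : ℕ} (hi : i < m)
    (hl : l < m) (ha : a < M) (hb : b < M) (hc : c < M) (h1 : a ≠ b) (h2 : l ≠ i) :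
    orient (z i a) (z i b) (z l c) ≠ 0 := by
  have key : ∀ a b, a < b → b < M → orient (z i a) (z i b) (z l c) ≠ 0 := by
    intro a b hab hb
    by_cases h : l = (i + 1) % m
    · exact ((H.B i l a b c hi hl h2 hab hb hc).1 h).ne
    · exact ((H.B i l a b c hi hl h2 hab hb hc).2 h).ne'
  rcases lt_or_gt_of_ne h1 with h | h
  · exact key a b h hb
  · exact nz_swap (key b a h ha)

/-- one cluster -/
lemma nz1 {m M : ℕ} {z : ℕ → ℕ → E2} (H : Cfg m M z) {i a b c : ℕ} (hi : i < m)
    (ha : a < M) (hb : b < M) (hc : c < M) (h1 : a ≠ b) (h2 : a ≠ c) (h3 : b ≠ c) :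
    orient (z i a) (z i b) (z i c) ≠ 0 := by
  rcases lt_or_gt_of_ne h1 with h | h <;> rcases lt_or_gt_of_ne h2 with h' | h' <;>
    rcases lt_or_gt_of_ne h3 with h'' | h''
  · exact (H.C i a b c hi h h'' hc).ne
  · exact nz_swap (nz_cycl (nz_cycl (H.C i a c b hi h' h'' hb).ne))
  · omega
  · exact nz_cycl (H.C i c a b hi h' h hb).ne
  · exact nz_swap (H.C i b a c hi h h' hc).ne
  · omega
  · exact nz_cycl (nz_cycl (H.C i b c a hi h'' h' ha).ne)
  · exact nz_cycl (nz_swap (nz_cycl (nz_cycl (H.C i c b a hi h'' h ha).ne)))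

lemma nz_all {m M : ℕ} {z : ℕ → ℕ → E2} (H : Cfg m M z) {i j l a b c : ℕ} (hi : i < m)
    (hj : j < m) (hl : l < m) (ha : a < M) (hb : b < M) (hc : c < M) (h1 : i = j → a ≠ b)
    (h2 : i = l → a ≠ c) (h3 : j = l → b ≠ c) : orient (z i a) (z j b) (z l c) ≠ 0 := by
  by_cases e1 : i = j
  · subst e1
    by_cases e2 : i = l
    · subst e2
      exact nz1 H hi ha hb hc (h1 rfl) (h2 rfl) (h3 rfl)
    · exact nz2 H hi hl ha hb hc (h1 rfl) (Ne.symm e2)
  · by_cases e2 : i = l
    · subst e2
      exact nz_cycl (nz2 H hi hj hc ha hb (Ne.symm (h2 rfl)) (Ne.symm e1))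
    · by_cases e3 : j = l
      · subst e3
        exact nz_cycl (nz_cycl (nz2 H hj hi hb hc ha (h3 rfl) e1))
      · exact nz3 H hi hj hl ha hb hc e1 e2 e3

lemma z_inj {m M : ℕ} (hm : 3 ≤ m) {z : ℕ → ℕ → E2} (H : Cfg m M z) {i j a b : ℕ} (hi : i < m)
    (hj : j < m) (ha : a < M) (hb : b < M) (h : z i a = z j b) : i = j ∧ a = b := by
  by_contra hne
  obtain ⟨l, hl, hli, hlj⟩ : ∃ l, l < m ∧ l ≠ i ∧ l ≠ j := by
    by_cases h0 : i ≠ 0 ∧ j ≠ 0
    · exact ⟨0, by omega, Ne.symm h0.1, Ne.symm h0.2⟩
    · by_cases h1 : i ≠ 1 ∧ j ≠ 1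
      · exact ⟨1, by omega, Ne.symm h1.1, Ne.symm h1.2⟩
      · exact ⟨2, by omega, by omega, by omega⟩
  have h1 := nz_all H hi hj hl ha hb ha (fun h1 h2 => hne ⟨h1, h2⟩) (fun h => absurd h.symm hli)
    (fun h => absurd h.symm hlj)
  apply h1
  rw [h]
  unfold orient
  ring

/-- a point strictly inside a triangle of points of the set is not a hull vertex -/
lemma not_ext {T : Finset E2} {a b c p : E2} (ha : a ∈ T) (hb : b ∈ T) (hc : c ∈ T)
    (h1 : 0 < orient a b p) (h2 : 0 < orient b c p) (h3 : 0 < orient c a p) :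
    p ∉ extPts T := by
  intro hp
  apply hp.2
  have hap : a ≠ p := by
    rintro rfl
    rw [orient_self_left] at h1
    exact lt_irrefl _ h1
  have hbp : b ≠ p := by
    rintro rfl
    rw [orient_self_left] at h2
    exact lt_irrefl _ h2
  have hcp : c ≠ p := by
    rintro rfl
    rw [orient_self_left] at h3
    exact lt_irrefl _ h3
  set D := orient a b p + orient b c p + orient c a p with hD
  have hD0 : 0 < D := by positivity
  have hmem : ∀ q ∈ T, q ≠ p → q ∈ convexHull ℝ ((T : Set E2) \ {p}) := fun q hq hqp =>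
    subset_convexHull ℝ _ ⟨by exact_mod_cast hq, by simpa using hqp⟩
  have hDc : D = orient a b c := by
    rw [hD]
    unfold orient
    ring
  have key : p = ∑ i : Fin 3, (![orient b c p / D, orient c a p / D, orient a b p / D] i) •
      (![a, b, c] i) := by
    rw [Fin.sum_univ_three]
    ext i
    simp only [Matrix.cons_val_zero, Matrix.cons_val_one, Matrix.cons_val, PiLp.add_apply,
      PiLp.smul_apply, smul_eq_mul]
    have e : p i * D = orient b c p * a i + orient c a p * b i + orient a b p * c i := by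
      rw [hD]
      unfold orient
      fin_cases i
      · simp only [Fin.zero_eta, Fin.isValue]
        ring
      · simp only [Fin.mk_one, Fin.isValue]
        ring
    field_simp
    linarith
  have hsum : (∑ i : Fin 3, (![orient b c p / D, orient c a p / D, orient a b p / D] i) •
      (![a, b, c] i)) ∈ convexHull ℝ ((T : Set E2) \ {p}) := by
    refine (convex_convexHull ℝ _).sum_mem (fun i _ => ?_) ?_ (fun i _ => ?_)
    · fin_cases i
      · exact (div_pos h2 hD0).le
      · exact (div_pos h3 hD0).le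
      · exact (div_pos h1 hD0).le
    · rw [Fin.sum_univ_three]
      simp only [Matrix.cons_val_zero, Matrix.cons_val_one, Matrix.cons_val]
      rw [← add_div, ← add_div, div_eq_one_iff_eq hD0.ne', hD]
      ring
    · fin_cases i
      · exact hmem a ha hap
      · exact hmem b hb hbp
      · exact hmem c hc hcp
  rwa [← key] at hsum

/-- cyclic order of a cluster, its successor and another one -/
lemma cyc {m M : ℕ} {z : ℕ → ℕ → E2} (H : Cfg m M z) {i j a b c : ℕ} (hi : i < m) (hj : j < m)
    (ha : a < M) (hb : b < M) (hc : c < M) (h1 : j ≠ i) (h2 : j ≠ (i + 1) % m) :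
    0 < orient (z i a) (z ((i + 1) % m) b) (z j c) := by
  rcases Nat.lt_or_ge (i + 1) m with h | h
  · rw [Nat.mod_eq_of_lt h] at h2 ⊢
    rcases Nat.lt_or_ge j i with h' | h'
    · have := H.A j i (i + 1) c a b h' (by omega) h hc ha hb
      rw [orient_cycl] at this
      exact this
    · exact H.A i (i + 1) j a b c (by omega) (by omega) hj ha hb hc
  · have h3 : i + 1 = m := by omega
    rw [h3, Nat.mod_self] at h2 ⊢
    have := H.A 0 j i b c a (by omega) (by omega) hi hb hc ha
    rw [← orient_cycl] at this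
    exact this

lemma sum_shift (m : ℕ) (f : ℕ → ℕ) : ∑ i ∈ range m, f ((i + 1) % m) = ∑ i ∈ range m, f i := by
  rcases m with _ | m
  · simp
  · rw [Finset.sum_range_succ, Nat.mod_self, Finset.sum_range_succ']
    congr 1
    refine Finset.sum_congr rfl fun i hi => ?_
    rw [Finset.mem_range] at hi
    rw [Nat.mod_eq_of_lt (by omega)]

open Classical in
/-- **Few hull vertices.** -/
lemma ext_le {m M n : ℕ} (hm : 3 ≤ m) {z : ℕ → ℕ → E2} (H : Cfg m M z) (hn : 2 * M < n)
    {T : Finset E2} (hT : T ⊆ (range m ×ˢ range M).image (fun q => z q.1 q.2))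
    (hTn : T.card = n) : (extPts T).ncard ≤ m := by
  set E : ℕ → Finset ℕ := fun i => (range M).filter (fun a => z i a ∈ extPts T) with hE
  have hmemE : ∀ {i a}, a ∈ E i → a < M ∧ z i a ∈ extPts T := by
    intro i a h
    have := Finset.mem_filter.1 h
    exact ⟨Finset.mem_range.1 this.1, this.2⟩
  have hTmem : ∀ p ∈ T, ∃ i a, i < m ∧ a < M ∧ z i a = p := by
    intro p hp
    obtain ⟨q, hq, rfl⟩ := Finset.mem_image.1 (hT hp)
    obtain ⟨h1, h2⟩ := Finset.mem_product.1 hq
    exact ⟨q.1, q.2, Finset.mem_range.1 h1, Finset.mem_range.1 h2, rfl⟩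
  have hcard : (extPts T).ncard ≤ ∑ i ∈ range m, (E i).card := by
    have hsub : extPts T ⊆ (((range m).biUnion (fun i => (E i).image (z i)) : Finset E2) :
        Set E2) := by
      intro p hp
      obtain ⟨i, a, hi, ha, rfl⟩ := hTmem p hp.1
      rw [Finset.mem_coe, Finset.mem_biUnion]
      exact ⟨i, Finset.mem_range.2 hi, Finset.mem_image.2
        ⟨a, Finset.mem_filter.2 ⟨Finset.mem_range.2 ha, hp⟩, rfl⟩⟩
    calc (extPts T).ncard ≤ _ := Set.ncard_le_ncard hsub (Finset.finite_toSet _)
      _ = _ := Set.ncard_coe_finset _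
      _ ≤ ∑ i ∈ range m, ((E i).image (z i)).card := Finset.card_biUnion_le
      _ ≤ _ := Finset.sum_le_sum fun i _ => Finset.card_image_le
  have hfar : ∀ i, ∃ j c, j < m ∧ c < M ∧ j ≠ i ∧ j ≠ (i + 1) % m ∧ z j c ∈ T := by
    intro i
    by_contra hcon
    push Not at hcon
    have hsub : T ⊆ (range M).image (z i) ∪ (range M).image (z ((i + 1) % m)) := by
      intro p hp
      obtain ⟨j, c, hj, hc, rfl⟩ := hTmem p hp
      by_cases h1 : j = i
      · subst h1
        exact Finset.mem_union_left _ (Finset.mem_image_of_mem _ (Finset.mem_range.2 hc))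
      · by_cases h2 : j = (i + 1) % m
        · refine Finset.mem_union_right _ (Finset.mem_image.2 ⟨c, Finset.mem_range.2 hc, ?_⟩)
          rw [← h2]
        · exact absurd hp (hcon j c hj hc h1 h2)
    have h1 := (Finset.card_le_card hsub).trans (Finset.card_union_le _ _)
    have h2 : ((range M).image (z i)).card ≤ M :=
      Finset.card_image_le.trans (by rw [Finset.card_range])
    have h3 : ((range M).image (z ((i + 1) % m))).card ≤ M :=
      Finset.card_image_le.trans (by rw [Finset.card_range])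
    omega
  -- at most two vertices in a cluster
  have htwo : ∀ i < m, (E i).card ≤ 2 := by
    intro i hi
    by_contra hcon
    have hcon : 2 < (E i).card := not_le.1 hcon
    have hne : (E i).Nonempty := Finset.card_pos.1 (by omega)
    set a := (E i).min' hne with ha
    set c := (E i).max' hne with hc
    have haE : a ∈ E i := Finset.min'_mem _ _
    have hcE : c ∈ E i := Finset.max'_mem _ _
    have hex : (((E i).erase a).erase c).Nonempty := by
      apply Finset.card_pos.1
      have h1 := Finset.card_erase_of_mem haE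
      have h2 := Finset.pred_card_le_card_erase (s := (E i).erase a) (a := c)
      omega
    obtain ⟨b, hb⟩ := hex
    rw [Finset.mem_erase, Finset.mem_erase] at hb
    obtain ⟨hbc, hba, hbE⟩ := hb
    have hab : a < b := lt_of_le_of_ne (Finset.min'_le _ _ hbE) (Ne.symm hba)
    have hbc' : b < c := lt_of_le_of_ne (Finset.le_max' _ _ hbE) hbc
    obtain ⟨j, d, hj, hd, hji, hjs, hjT⟩ := hfar i
    obtain ⟨haM, haT⟩ := hmemE haE
    obtain ⟨hbM, hbT⟩ := hmemE hbE
    obtain ⟨hcM, hcT⟩ := hmemE hcE
    have s1 := H.C i a b c hi hab hbc' hcM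
    have s2 := (H.B i j a b d hi hj hji hab hbM hd).2 hjs
    have s3 := (H.B i j b c d hi hj hji hbc' hcM hd).2 hjs
    refine not_ext (a := z i a) (b := z i c) (c := z j d) haT.1 hcT.1 hjT ?_ ?_ ?_ hbT
    · have : orient (z i a) (z i c) (z i b) = - orient (z i a) (z i b) (z i c) := by
        unfold orient; ring
      rw [this]
      linarith
    · have : orient (z i c) (z j d) (z i b) = orient (z i b) (z i c) (z j d) := by
        unfold orient; ring
      rw [this]
      exact s3
    · have : orient (z j d) (z i a) (z i b) = orient (z i a) (z i b) (z j d) := by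
        unfold orient; ring
      rw [this]
      exact s2
  -- two vertices in a cluster: the next one is empty
  have hnext : ∀ i < m, (E i).card = 2 → (E ((i + 1) % m)).card = 0 := by
    intro i hi h2
    by_contra hcon
    obtain ⟨t, ht⟩ := Finset.card_pos.1 (Nat.pos_of_ne_zero hcon)
    obtain ⟨htM, htT⟩ := hmemE ht
    obtain ⟨j, d, hj, hd, hji, hjs, hjT⟩ := hfar i
    obtain ⟨a, ha, b, hb, hab⟩ := Finset.one_lt_card.1 (by omega : 1 < (E i).card)
    have key : ∀ a b, a ∈ E i → b ∈ E i → a < b → False := by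
      intro a b ha hb hab
      obtain ⟨haM, haT⟩ := hmemE ha
      obtain ⟨hbM, hbT⟩ := hmemE hb
      have hsi : (i + 1) % m ≠ i := by
        rcases Nat.lt_or_ge (i + 1) m with h | h
        · rw [Nat.mod_eq_of_lt h]; omega
        · have : i + 1 = m := by omega
          rw [this, Nat.mod_self]; omega
      have s1 := (H.B i ((i + 1) % m) a b t hi (Nat.mod_lt _ (by omega)) hsi hab hbM htM).1 rfl
      have s2 := (H.B i j a b d hi hj hji hab hbM hd).2 hjs
      have s3 := cyc H hi hj hbM htM hd hji hjs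
      refine not_ext (a := z i a) (b := z ((i + 1) % m) t) (c := z j d) haT.1 htT.1 hjT
        ?_ ?_ ?_ hbT
      · have : orient (z i a) (z ((i + 1) % m) t) (z i b) =
            - orient (z i a) (z i b) (z ((i + 1) % m) t) := by
          unfold orient; ring
        rw [this]
        linarith
      · have : orient (z ((i + 1) % m) t) (z j d) (z i b) =
            orient (z i b) (z ((i + 1) % m) t) (z j d) := by
          unfold orient; ring
        rw [this]
        exact s3
      · have : orient (z j d) (z i a) (z i b) = orient (z i a) (z i b) (z j d) := by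
          unfold orient; ring
        rw [this]
        exact s2
    rcases lt_or_gt_of_ne hab with h | h
    · exact key a b ha hb h
    · exact key b a hb ha h
  have hsum : ∑ i ∈ range m, (E i).card ≤ m := by
    have h1 : ∑ i ∈ range m, ((E i).card + (if (E i).card = 0 then 1 else 0)) ≤
        ∑ i ∈ range m, (1 + (if (E ((i + 1) % m)).card = 0 then 1 else 0)) := by
      refine Finset.sum_le_sum fun i hi => ?_
      have hi' := Finset.mem_range.1 hi
      have h2 := htwo i hi'
      rcases Nat.lt_or_ge (E i).card 2 with h | h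
      · split_ifs <;> omega
      · have h3 : (E i).card = 2 := by omega
        rw [if_neg (by omega), if_pos (hnext i hi' h3)]
        omega
    rw [Finset.sum_add_distrib, Finset.sum_add_distrib, Finset.sum_const, Finset.card_range,
      smul_eq_mul, mul_one,
      sum_shift m (fun i => if (E i).card = 0 then 1 else 0)] at h1
    omega
  exact hcard.trans hsum

end CountAux

open CountAux

/-- **The lower bound of Károlyi and Tóth**: `(k - 1) ⌊(n - 1) / 2⌋` points in general position
whose `n`-subsets all have fewer than `k` hull vertices. -/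
theorem lower (k n : ℕ) (hk : 4 ≤ k) (hn : 1 ≤ n) : ∃ S : Finset E2, GenPos S ∧
    S.card = (k - 1) * ((n - 1) / 2) ∧
    ∀ T : Finset E2, T ⊆ S → T.card = n → (extPts T).ncard < k := by
  classical
  set m := k - 1 with hm
  set M := (n - 1) / 2 with hM
  have hm3 : 3 ≤ m := by omega
  obtain ⟨z, hA, hB, hC⟩ := exists_config m M hm3
  have H : Cfg m M z := ⟨hA, hB, hC⟩
  refine ⟨(range m ×ˢ range M).image (fun q => z q.1 q.2), ?_, ?_, ?_⟩
  · intro a ha b hb c hc hab hac hbc
    obtain ⟨q1, h1, rfl⟩ := Finset.mem_image.1 ha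
    obtain ⟨q2, h2, rfl⟩ := Finset.mem_image.1 hb
    obtain ⟨q3, h3, rfl⟩ := Finset.mem_image.1 hc
    rw [Finset.mem_product, Finset.mem_range, Finset.mem_range] at h1 h2 h3
    refine nz_all H h1.1 h2.1 h3.1 h1.2 h2.2 h3.2 (fun e e' => hab ?_) (fun e e' => hac ?_)
      (fun e e' => hbc ?_)
    · show z q1.1 q1.2 = z q2.1 q2.2
      rw [e, e']
    · show z q1.1 q1.2 = z q3.1 q3.2
      rw [e, e']
    · show z q2.1 q2.2 = z q3.1 q3.2
      rw [e, e']
  · rw [Finset.card_image_of_injOn, Finset.card_product, Finset.card_range, Finset.card_range]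
    intro q1 h1 q2 h2 h
    rw [Finset.mem_coe, Finset.mem_product, Finset.mem_range, Finset.mem_range] at h1 h2
    obtain ⟨e1, e2⟩ := z_inj hm3 H h1.1 h2.1 h1.2 h2.2 h
    exact Prod.ext e1 e2
  · intro T hT hTn
    have := ext_le hm3 H (by omega) hT hTn
    omega

end Pool.Agent.Lib.EcB
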