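import Pool.Agent.Lib.EcB.Count

/-!
# EcB.Lim: the function `g(k,n)`, its lower bound and the limit statement
-/

set_option autoImplicit false

namespace Pool.Agent.Lib.EcB

open Pool.Agent.Lib.Pec6744 Finset

/-- `N` has the property of the problem for `k` and `n`: every planar set of `N` points, no three
on a line, has an `n`-element subset whose convex hull has at least `k` vertices. -/
def Good (k n N : ℕ) : Prop :=
  ∀ S : Finset (EuclideanSpace ℝ (Fin 2)), S.card = N →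
    (∀ a ∈ S, ∀ b ∈ S, ∀ c ∈ S, a ≠ b → a ≠ c → b ≠ c →
      ¬ Collinear ℝ ({a, b, c} : Set (EuclideanSpace ℝ (Fin 2)))) →
    ∃ T : Finset (EuclideanSpace ℝ (Fin 2)), T ⊆ S ∧ T.card = n ∧
      k ≤ ({p : EuclideanSpace ℝ (Fin 2) | p ∈ T ∧
            p ∉ convexHull ℝ ((T : Set (EuclideanSpace ℝ (Fin 2))) \ {p})}).ncard

/-- the function `g(k,n)` of the problem -/
noncomputable def g (k n : ℕ) : ℕ := sInf {N : ℕ | Good k n N}

lemma collinear_of_orient {a b c : E2} (hab : a ≠ b) (h : orient a b c = 0) :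
    Collinear ℝ ({a, b, c} : Set E2) := by
  rw [collinear_iff_of_mem (p₀ := a) (by simp)]
  refine ⟨b - a, ?_⟩
  intro p hp
  rcases hp with rfl | rfl | hp
  · exact ⟨0, by simp⟩
  · exact ⟨1, by simp⟩
  · rw [Set.mem_singleton_iff] at hp
    subst hp
    unfold orient at h
    by_cases h0 : b 0 - a 0 = 0
    · have h1 : b 1 - a 1 ≠ 0 := by
        intro h1
        apply hab
        ext i
        fin_cases i
        · show a 0 = b 0
          linarith
        · show a 1 = b 1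
          linarith
      have h2 : p 0 - a 0 = 0 := by
        rw [h0] at h
        have : (b 1 - a 1) * (p 0 - a 0) = 0 := by linarith
        exact (mul_eq_zero.1 this).resolve_left h1
      refine ⟨(p 1 - a 1) / (b 1 - a 1), ?_⟩
      ext i
      fin_cases i
      · show p 0 = (p 1 - a 1) / (b 1 - a 1) * (b 0 - a 0) + a 0
        rw [h0]; linarith
      · show p 1 = (p 1 - a 1) / (b 1 - a 1) * (b 1 - a 1) + a 1
        field_simp
        ring
    · refine ⟨(p 0 - a 0) / (b 0 - a 0), ?_⟩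
      ext i
      fin_cases i
      · show p 0 = (p 0 - a 0) / (b 0 - a 0) * (b 0 - a 0) + a 0
        field_simp
        ring
      · show p 1 = (p 0 - a 0) / (b 0 - a 0) * (b 1 - a 1) + a 1
        field_simp
        linarith

lemma orient_of_collinear {a b c : E2} (h : Collinear ℝ ({a, b, c} : Set E2)) :
    orient a b c = 0 := by
  rw [collinear_iff_of_mem (p₀ := a) (by simp)] at h
  obtain ⟨v, hv⟩ := h
  obtain ⟨r, hr⟩ := hv b (by simp)
  obtain ⟨q, hq⟩ := hv c (by simp)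
  subst hr
  subst hq
  unfold orient
  simp only [vadd_eq_add, PiLp.add_apply, PiLp.smul_apply, smul_eq_mul]
  ring

lemma lt_of_good {k n N : ℕ} (hk : 4 ≤ k) (hn : 1 ≤ n) (h : Good k n N) :
    (k - 1) * ((n - 1) / 2) < N := by
  by_contra hN
  obtain ⟨S, hgp, hS, hT⟩ := lower k n hk hn
  obtain ⟨S', hS', hc⟩ := Finset.exists_subset_card_eq (by rw [hS]; omega : N ≤ S.card)
  obtain ⟨T, h1, h2, h3⟩ := h S' hc (fun a ha b hb c hc hab hac hbc hcol =>
    hgp a (hS' ha) b (hS' hb) c (hS' hc) hab hac hbc (orient_of_collinear hcol))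
  exact absurd h3 (not_le.2 (hT T (h1.trans hS') h2))

lemma g_lower {k n : ℕ} (hk : 4 ≤ k) (hn : 1 ≤ n) (hne : ∃ N, Good k n N) :
    (k - 1) * ((n - 1) / 2) + 1 ≤ g k n :=
  lt_of_good hk hn (Nat.sInf_mem (s := {N : ℕ | Good k n N}) hne)

/-- real form of the lower bound -/
lemma g_lower_real {k n : ℕ} (hk : 4 ≤ k) (hn : 1 ≤ n) (hne : ∃ N, Good k n N) :
    ((k : ℝ) - 1) / 2 * n - ((k : ℝ) - 1) ≤ g k n := by
  have h1 := g_lower hk hn hne
  have h2 : (((k - 1) * ((n - 1) / 2) + 1 : ℕ) : ℝ) ≤ g k n := by exact_mod_cast h1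
  have h3 : ((k - 1 : ℕ) : ℝ) = (k : ℝ) - 1 := by
    rw [Nat.cast_sub (by omega)]; simp
  have h4 : (n : ℝ) - 2 ≤ 2 * (((n - 1) / 2 : ℕ) : ℝ) := by
    have : n ≤ 2 * ((n - 1) / 2) + 2 := by omega
    have : (n : ℝ) ≤ 2 * (((n - 1) / 2 : ℕ) : ℝ) + 2 := by exact_mod_cast this
    linarith
  push_cast at h2
  rw [h3] at h2
  have h5 : (0 : ℝ) ≤ (k : ℝ) - 1 := by
    have : (4 : ℝ) ≤ k := by exact_mod_cast hk
    linarith
  nlinarith [mul_le_mul_of_nonneg_left h4 h5]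

/-- the upper bound in the form of the proof gives the property `Good` -/
lemma good_of_upper {k n N : ℕ} {x : ℝ}
    (h : ∀ P : Finset E2, GenPos P → x ≤ P.card → ∃ T ⊆ P, T.card = n ∧ k ≤ (extPts T).ncard)
    (hN : x ≤ N) : Good k n N := by
  intro S hS hgp
  obtain ⟨T, h1, h2, h3⟩ := h S (by
    intro a ha b hb c hc hab hac hbc h0
    exact hgp a ha b hb c hc hab hac hbc (collinear_of_orient hab h0)) (by rw [hS]; exact hN)
  exact ⟨T, h1, h2, h3⟩

open Filter Topology in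
/-- **The limit.** If for every `ε > 0` and all large `n` every planar set in general position with
at least `((k-1)/2 + ε) n` points has an `n`-subset with at least `k` hull vertices, then
`g(k,n)/n → (k-1)/2`. -/
theorem g_tendsto (k : ℕ) (hk : 4 ≤ k)
    (hup : ∀ ε : ℝ, 0 < ε → ∃ n0 : ℕ, ∀ n : ℕ, n0 ≤ n → ∀ P : Finset E2, GenPos P →
      (((k : ℝ) - 1) / 2 + ε) * n ≤ P.card → ∃ T ⊆ P, T.card = n ∧ k ≤ (extPts T).ncard) :
    (∀ ε : ℝ, 0 < ε → ∀ᶠ n : ℕ in atTop, ∀ N : ℕ, (((k : ℝ) - 1) / 2 + ε) * n ≤ N → Good k n N) ∧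
    (∀ n N : ℕ, 1 ≤ n → Good k n N → (k - 1) * ((n - 1) / 2) < N) ∧
    Tendsto (fun n : ℕ => (g k n : ℝ) / n) atTop (𝓝 (((k : ℝ) - 1) / 2)) := by
  have hk4 : (4 : ℝ) ≤ k := by exact_mod_cast hk
  have hgood : ∀ ε : ℝ, 0 < ε → ∃ n0 : ℕ, ∀ n : ℕ, n0 ≤ n → ∀ N : ℕ,
      (((k : ℝ) - 1) / 2 + ε) * n ≤ N → Good k n N := by
    intro ε hε
    obtain ⟨n0, h⟩ := hup ε hε
    exact ⟨n0, fun n hn N hN => good_of_upper (h n hn) hN⟩
  refine ⟨fun ε hε => ?_, fun n N hn h => lt_of_good hk hn h, ?_⟩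
  · obtain ⟨n0, h⟩ := hgood ε hε
    exact eventually_atTop.2 ⟨n0, h⟩
  rw [Metric.tendsto_atTop]
  intro ε hε
  obtain ⟨n0, h0⟩ := hgood (ε / 2) (by positivity)
  obtain ⟨n1, h1⟩ := exists_nat_gt (((k : ℝ) + 2) / (ε / 2))
  refine ⟨max n0 (max n1 1), fun n hn => ?_⟩
  have hn0 : n0 ≤ n := (le_max_left _ _).trans hn
  have hn1 : n1 ≤ n := ((le_max_left _ _).trans (le_max_right _ _)).trans hn
  have hn2 : 1 ≤ n := ((le_max_right _ _).trans (le_max_right _ _)).trans hn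
  have hnpos : (0 : ℝ) < n := by exact_mod_cast hn2
  have hg := h0 n hn0 _ (Nat.le_ceil _)
  have hlow := g_lower_real hk hn2 ⟨_, hg⟩
  have h3 : g k n ≤ ⌈(((k : ℝ) - 1) / 2 + ε / 2) * n⌉₊ := Nat.sInf_le hg
  have h4 : (g k n : ℝ) ≤ (⌈(((k : ℝ) - 1) / 2 + ε / 2) * n⌉₊ : ℝ) := by exact_mod_cast h3
  have h5 : (⌈(((k : ℝ) - 1) / 2 + ε / 2) * n⌉₊ : ℝ) < (((k : ℝ) - 1) / 2 + ε / 2) * n + 1 := by
    apply Nat.ceil_lt_add_one
    have : (0 : ℝ) ≤ ((k : ℝ) - 1) / 2 + ε / 2 := by linarith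
    positivity
  have h6 : ((k : ℝ) + 2) / (ε / 2) < n := by
    have : (n1 : ℝ) ≤ n := by exact_mod_cast hn1
    linarith
  rw [div_lt_iff₀ (by positivity)] at h6
  rw [Real.dist_eq, abs_lt]
  constructor
  · rw [lt_sub_iff_add_lt, lt_div_iff₀ hnpos]
    nlinarith
  · rw [sub_lt_iff_lt_add, div_lt_iff₀ hnpos]
    nlinarith

end Pool.Agent.Lib.EcB
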